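import Pool.Agent.Helper15.TS.St

/-!
# Project TS (MP_434a84_lc), module CLS: the class (congruences and one linear equation) is semilinear
-/

set_option autoImplicit false

namespace Pool.Agent.Helper21.TS

open Pool.Agent.Helper22.FL Pool.Agent.Helper22.CS Pool.Agent.Helper15.TS

open Classical in
/-- the values of the equations and congruences at a vector -/
noncomputable def clsH (n : ℕ) (I : Finset (Fin n)) (d : ℕ) (α : Fin n → ℤ) :
    (Fin n → ℕ) →+ ((Fin n → ℤ) × (Fin n → ZMod d) × ℤ) where
  toFun y := (fun i => if i ∈ I then 0 else (y i : ℤ), fun i => (y i : ZMod d), ∑ i, α i * (y i : ℤ))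
  map_zero' := by
    refine Prod.ext ?_ (Prod.ext ?_ ?_)
    · funext i
      simp
    · funext i
      simp
    · simp
  map_add' y z := by
    refine Prod.ext ?_ (Prod.ext ?_ ?_)
    · funext i
      by_cases h : i ∈ I <;> simp [h]
    · funext i
      simp
    · simp [mul_add, Finset.sum_add_distrib]

theorem stcls : StCLS := by
  intro n I x d α
  have h := isSemilinearSet_setOfPred_eq (0 : (Fin n → ℤ) × (Fin n → ZMod d) × ℤ) (clsH n I d α x)
    (clsH n I d α) (0 : (Fin n → ℕ) →+ ((Fin n → ℤ) × (Fin n → ZMod d) × ℤ))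
  have he : {y : Fin n → ℕ | (∀ i, i ∉ I → y i = x i) ∧
      (∀ i, (d : ℤ) ∣ (y i : ℤ) - x i) ∧ ∑ i, α i * ((y i : ℤ) - x i) = 0} =
      {y | 0 + clsH n I d α y = clsH n I d α x +
        (0 : (Fin n → ℕ) →+ ((Fin n → ℤ) × (Fin n → ZMod d) × ℤ)) y} := by
    ext y
    rw [Set.mem_ofPred_eq, Set.mem_ofPred_eq, zero_add, AddMonoidHom.zero_apply, add_zero]
    constructor
    · rintro ⟨h1, h2, h3⟩
      refine Prod.ext ?_ (Prod.ext ?_ ?_)
      · funext i
        show (if i ∈ I then (0 : ℤ) else (y i : ℤ)) = if i ∈ I then (0 : ℤ) else (x i : ℤ)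
        by_cases hi : i ∈ I
        · rw [if_pos hi, if_pos hi]
        · rw [if_neg hi, if_neg hi, h1 i hi]
      · funext i
        show (y i : ZMod d) = (x i : ZMod d)
        have h4 := (ZMod.intCast_zmod_eq_zero_iff_dvd ((y i : ℤ) - x i) d).2 (h2 i)
        push_cast at h4
        exact sub_eq_zero.1 h4
      · show ∑ i, α i * (y i : ℤ) = ∑ i, α i * (x i : ℤ)
        rw [← sub_eq_zero, ← Finset.sum_sub_distrib, ← h3]
        refine Finset.sum_congr rfl fun i _ => ?_
        ring
    · intro h
      have h1 : ∀ i, (if i ∈ I then (0 : ℤ) else (y i : ℤ)) = if i ∈ I then (0 : ℤ) else (x i : ℤ) := by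
        intro i
        have := congrFun (congrArg Prod.fst h) i
        simp only [clsH] at this
        by_cases hi : i ∈ I
        · rw [if_pos hi, if_pos hi]
        · simpa [hi] using this
      have h2 : ∀ i, (y i : ZMod d) = (x i : ZMod d) := fun i =>
        congrFun (congrArg (fun q => q.2.1) h) i
      have h3 : ∑ i, α i * (y i : ℤ) = ∑ i, α i * (x i : ℤ) := congrArg (fun q => q.2.2) h
      refine ⟨fun i hi => ?_, fun i => ?_, ?_⟩
      · have := h1 i
        rw [if_neg hi, if_neg hi] at this
        exact_mod_cast this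
      · refine (ZMod.intCast_zmod_eq_zero_iff_dvd ((y i : ℤ) - x i) d).1 ?_
        push_cast
        rw [h2 i, sub_self]
      · rw [← sub_eq_zero, ← Finset.sum_sub_distrib] at h3
        rw [← h3]
        refine Finset.sum_congr rfl fun i _ => ?_
        ring
  rw [he]
  exact h

end Pool.Agent.Helper21.TS
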