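import Pool.Agent.Helper15.TS.St

/-!
# Project TS (MP_434a84_lc), module REP: proper semilinear representation with rationally independent periods
-/

set_option autoImplicit false

namespace Pool.Agent.Helper21.TS

open Pool.Agent.Helper22.FL Pool.Agent.Helper22.CS Pool.Agent.Helper15.TS
open scoped Pointwise

/-- `toQ` as an additive homomorphism -/
def toQH (n : ℕ) : (Fin n → ℕ) →+ (Fin n → ℚ) := (Nat.castAddMonoidHom ℚ).compLeft (Fin n)

theorem toQH_coe (n : ℕ) : (⇑(toQH n) : (Fin n → ℕ) → (Fin n → ℚ)) = toQ := rfl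

theorem toQH_inj {n : ℕ} (x y : Fin n → ℕ) : toQH n x = toQH n y ↔ x = y := by
  refine ⟨fun h => ?_, congr_arg _⟩
  ext i
  simpa [toQH] using congr_fun h i

theorem indep_toQ {n : ℕ} {s : Set (Fin n → ℕ)} (hs : LinearIndepOn ℕ id s) :
    LinearIndepOn ℚ (toQ (n := n)) s := by
  rw [← toQH_coe, LinearIndepOn, ← LinearIndependent.iff_fractionRing ℤ ℚ, ← LinearIndepOn,
    linearIndepOn_iff'']
  intro t f ht hf heq i hi
  rw [linearIndepOn_iff_linearIndepOn_finset] at hs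
  specialize hs t ht
  rw [linearIndepOn_finset_iffₛ] at hs
  specialize hs (Int.toNat ∘ f) (Int.toNat ∘ (-·) ∘ f) ?_ i hi
  · simp_rw [← toQH_inj, map_sum]
    rw [← sub_eq_zero, ← Finset.sum_sub_distrib, ← heq]
    refine Finset.sum_congr rfl fun j hj => ?_
    conv_rhs => rw [← (f j).toNat_sub_toNat_neg]
    simp only [sub_smul, map_nsmul, natCast_zsmul, Function.comp_apply, id_eq]
  · rw [← (f i).toNat_sub_toNat_neg, sub_eq_zero, Int.natCast_inj]
    simpa using hs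

theorem mem_lin_iff {n : ℕ} (a : Fin n → ℕ) (t : Finset (Fin n → ℕ)) (x : Fin n → ℕ) :
    x ∈ lin a t ↔ x ∈ a +ᵥ (AddSubmonoid.closure (t : Set (Fin n → ℕ)) : Set (Fin n → ℕ)) := by
  rw [Set.mem_vadd_set]
  constructor
  · rintro ⟨f, rfl⟩
    refine ⟨∑ p ∈ t, f p • p, ?_, rfl⟩
    exact AddSubmonoid.sum_mem _ fun p hp => AddSubmonoid.nsmul_mem _
      (AddSubmonoid.subset_closure (Finset.mem_coe.2 hp)) _
  · rintro ⟨y, hy, rfl⟩
    have hy' : y ∈ Submodule.span ℕ (t : Set (Fin n → ℕ)) := by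
      rw [← Submodule.mem_toAddSubmonoid, Submodule.span_nat_eq_addSubmonoidClosure]
      exact hy
    obtain ⟨f, -, hf⟩ := Submodule.mem_span_finset.1 hy'
    exact ⟨f, by rw [← hf]; rfl⟩

theorem strep : StREP := by
  classical
  intro n S hS
  obtain ⟨T, hT, hST⟩ := isProperSemilinearSet_iff.1 hS.isProperSemilinearSet
  have h1 : ∀ t : {t // t ∈ T}, ∃ r : (Fin n → ℕ) × Finset (Fin n → ℕ),
      LinearIndepOn ℕ id (r.2 : Set (Fin n → ℕ)) ∧
      t.1 = r.1 +ᵥ (AddSubmonoid.closure (r.2 : Set (Fin n → ℕ)) : Set (Fin n → ℕ)) := by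
    intro t
    obtain ⟨a, s, h1, h2⟩ := isProperLinearSet_iff.1 (hT t.1 t.2)
    exact ⟨(a, s), h1, h2⟩
  choose r hr1 hr2 using h1
  refine ⟨Finset.univ.image r, ?_, ?_⟩
  · intro q hq
    obtain ⟨t, -, rfl⟩ := Finset.mem_image.1 hq
    exact indep_toQ (hr1 t)
  · intro x
    rw [hST, Set.mem_sUnion]
    constructor
    · rintro ⟨t, ht, hx⟩
      refine ⟨r ⟨t, ht⟩, Finset.mem_image.2 ⟨⟨t, ht⟩, Finset.mem_univ _, rfl⟩, ?_⟩
      rw [mem_lin_iff, ← hr2 ⟨t, ht⟩]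
      exact hx
    · rintro ⟨q, hq, hx⟩
      obtain ⟨t, -, rfl⟩ := Finset.mem_image.1 hq
      rw [mem_lin_iff, ← hr2 t] at hx
      exact ⟨t.1, t.2, hx⟩

end Pool.Agent.Helper21.TS
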